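import Pool.Agent.K1H95.EO.Stm

/-!
Project EO (helper95), piece GRAPH (helper26).
-/

set_option autoImplicit false

open Cardinal
open Pool.Agent.K1H95.EO

namespace Pool.Agent.K1H26.EO

theorem t_GRAPH (hNB : S_NB) (hRE : S_REACH) (hSW : S_SWAP) : S_GRAPH := by
  intro κ V X z hκ hG hcen hz1 hsub S hS
  by_contra hcon
  rw [not_lt] at hcon
  have hnb := hNB κ V X z hκ hsub S hS hcon
  have hcomm : ∀ (g : X ≃g X) (v : V), g (z v) = z (g v) := by
    intro g v
    have := congrArg (fun h : X ≃g X => h v) (hcen g)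
    simpa using this
  -- the relation
  obtain ⟨r, hr⟩ : ∃ r : V → V → Prop, r = fun u w => z u ≠ u ∧ z w ≠ w ∧
    (X.Adj u w ∨ w = z u ∨ u = z w) := ⟨_, rfl⟩
  have rsymm : ∀ u w, r u w → r w u := by
    intro u w h
    rw [hr] at h ⊢
    obtain ⟨h1, h2, h3⟩ := h
    refine ⟨h2, h1, ?_⟩
    rcases h3 with h3 | h3 | h3
    · exact Or.inl h3.symm
    · exact Or.inr (Or.inr h3)
    · exact Or.inr (Or.inl h3)
  have rcard : ∀ v : V, #{w : V | r v w} ≤ κ := by
    intro v
    by_cases hv : z v = v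
    · have : {w : V | r v w} = ∅ := by
        ext w
        simp [hr, hv]
      rw [this]
      simp
    · have hsubs : {w : V | r v w} ⊆ ({w : V | X.Adj v w} ∪ {z v}) ∪ {z.symm v} := by
        intro w hw
        rw [Set.mem_ofPred_eq, hr] at hw
        rcases hw.2.2 with h | h | h
        · exact Or.inl (Or.inl h)
        · exact Or.inl (Or.inr h)
        · right
          rw [Set.mem_singleton_iff, h]
          simp
      refine (Cardinal.mk_le_mk_of_subset hsubs).trans ((Cardinal.mk_union_le _ _).trans ?_)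
      refine Cardinal.add_le_of_le hκ ((Cardinal.mk_union_le _ _).trans ?_) ?_
      · refine Cardinal.add_le_of_le hκ (hnb v hv) ?_
        rw [Cardinal.mk_singleton]
        exact (Cardinal.one_le_aleph0).trans hκ
      · rw [Cardinal.mk_singleton]
        exact (Cardinal.one_le_aleph0).trans hκ
  obtain ⟨D, hD⟩ : ∃ D : V → Set V, D = fun v => {w | Relation.ReflTransGen r v w} := ⟨_, rfl⟩
  have Dmem : ∀ v w, w ∈ D v ↔ Relation.ReflTransGen r v w := by
    intro v w
    rw [hD]
    rfl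
  have Dcard : ∀ v, #(D v) ≤ κ := by
    intro v
    rw [hD]
    exact hRE κ V r hκ rcard v
  have Dself : ∀ v, v ∈ D v := fun v => (Dmem v v).2 Relation.ReflTransGen.refl
  have Dsymm : ∀ v w, w ∈ D v → v ∈ D w := by
    intro v w h
    rw [Dmem] at h ⊢
    haveI : Std.Symm r := ⟨fun a b hab => rsymm a b hab⟩
    exact (Relation.ReflTransGen.stdSymm (r := r)).symm _ _ h
  have DW : ∀ v, z v ≠ v → ∀ w ∈ D v, z w ≠ w := by
    intro v hv w hw
    rw [Dmem] at hw
    induction hw with
    | refl => exact hv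
    | tail _ h _ =>
      rw [hr] at h
      exact h.2.1
  have hτ : ∀ v, z v ≠ v → ∃ τ : X ≃g X, (∀ u ∈ D v, τ u = z u) ∧ (∀ u, u ∉ D v → τ u = u) := by
    intro v hv
    apply hSW V X z (D v)
    · intro u
      constructor
      · intro hu
        have h1 := DW v hv _ hu
        have h2 : z u ≠ u := fun h => h1 (by rw [h, h])
        rw [Dmem] at hu ⊢
        refine hu.tail ?_
        rw [hr]
        exact ⟨h1, h2, Or.inr (Or.inr rfl)⟩
      · intro hu
        have h1 := DW v hv _ hu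
        have h2 : z (z u) ≠ z u := fun h => h1 (z.injective h)
        rw [Dmem] at hu ⊢
        refine hu.tail ?_
        rw [hr]
        exact ⟨h1, h2, Or.inr (Or.inl rfl)⟩
    · intro u hu w hadj hw
      have h1 := DW v hv _ hu
      rw [Dmem] at hu ⊢
      refine hu.tail ?_
      rw [hr]
      exact ⟨h1, hw, Or.inl hadj⟩
  choose τ hτ1 hτ2 using hτ
  have hDτ : ∀ v (hv : z v ≠ v) u, u ∈ D v ↔ τ v hv u ≠ u := by
    intro v hv u
    constructor
    · intro hu
      rw [hτ1 v hv u hu]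
      exact DW v hv u hu
    · intro hu
      by_contra hn
      exact hu (hτ2 v hv u hn)
  -- a moved point
  obtain ⟨v0, hv0⟩ : ∃ v0, z v0 ≠ v0 := by
    by_contra hn
    push Not at hn
    apply hz1
    ext v
    exact hn v
  -- its stabilizer
  let St : Subgroup (X ≃g X) :=
    { carrier := {g | g v0 = v0}
      mul_mem' := by
        intro a b ha hb
        have ha' : a v0 = v0 := ha
        have hb' : b v0 = v0 := hb
        show (a * b) v0 = v0
        rw [RelIso.mul_apply, hb', ha']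
      one_mem' := rfl
      inv_mem' := by
        intro a ha
        have ha' : a v0 = v0 := ha
        show a⁻¹ v0 = v0
        conv_lhs => rw [← ha']
        rw [← RelIso.mul_apply, inv_mul_cancel]
        rfl }
  have hStm : ∀ g : X ≃g X, g ∈ St ↔ g v0 = v0 := fun g => Iff.rfl
  have hStc : #St ≤ κ := hsub St (fun h => hv0 ((hStm z).1 h))
  have hmul : κ * κ ≤ κ := (Cardinal.mul_eq_self hκ).le
  -- the orbit is large
  have hO : κ < #(Set.range fun g : X ≃g X => g v0) := by
    by_contra hn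
    rw [not_lt] at hn
    have h1 : #(X ≃g X) ≤ #(Set.range fun g : X ≃g X => g v0) * κ := by
      refine Cardinal.mk_le_mk_mul_of_mk_preimage_le
        (fun g : X ≃g X => (⟨g v0, g, rfl⟩ : Set.range fun g : X ≃g X => g v0)) ?_
      rintro ⟨b, g0, hg0⟩
      have hg0' : g0 v0 = b := hg0
      refine le_trans ?_ hStc
      refine Cardinal.mk_le_of_injective
        (f := fun g : ((fun g : X ≃g X => (⟨g v0, g, rfl⟩ : Set.range fun g : X ≃g X => g v0)) ⁻¹'
          {⟨b, g0, hg0⟩}) => (⟨g0⁻¹ * g.1, ?_⟩ : St)) ?_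
      · rw [hStm, RelIso.mul_apply]
        have h2 : g.1 v0 = b := congrArg Subtype.val g.2
        rw [h2, ← hg0', ← RelIso.mul_apply, inv_mul_cancel]
        rfl
      · intro g g' h
        have h3 : g0⁻¹ * g.1 = g0⁻¹ * g'.1 := congrArg Subtype.val h
        exact Subtype.ext (mul_left_cancel h3)
    have h2 : #(X ≃g X) ≤ κ := h1.trans ((mul_le_mul' hn le_rfl).trans hmul)
    exact absurd hG (not_lt.2 h2)
  -- the moved points are few
  have hW : #{w : V | z w ≠ w} ≤ κ := by
    have hsplit : {w : V | z w ≠ w} ⊆ D v0 ∪ {w : V | z w ≠ w ∧ v0 ∉ D w} := by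
      intro w hw
      by_cases h : v0 ∈ D w
      · exact Or.inl (Dsymm _ _ h)
      · exact Or.inr ⟨hw, h⟩
    refine (Cardinal.mk_le_mk_of_subset hsplit).trans ((Cardinal.mk_union_le _ _).trans ?_)
    refine Cardinal.add_le_of_le hκ (Dcard v0) ?_
    have h1 : #{w : V | z w ≠ w ∧ v0 ∉ D w} ≤ #St * κ := by
      refine Cardinal.mk_le_mk_mul_of_mk_preimage_le
        (fun w : {w : V | z w ≠ w ∧ v0 ∉ D w} => (⟨τ w.1 w.2.1, hτ2 w.1 w.2.1 v0 w.2.2⟩ : St)) ?_
      intro g
      by_cases hne : Nonempty ((fun w : {w : V | z w ≠ w ∧ v0 ∉ D w} =>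
        (⟨τ w.1 w.2.1, hτ2 w.1 w.2.1 v0 w.2.2⟩ : St)) ⁻¹' {g})
      · obtain ⟨w1⟩ := hne
        have hw1 : τ w1.1.1 w1.1.2.1 = g.1 := congrArg Subtype.val w1.2
        refine le_trans ?_ (Dcard w1.1.1)
        refine Cardinal.mk_le_of_injective
          (f := fun w : ((fun w : {w : V | z w ≠ w ∧ v0 ∉ D w} =>
            (⟨τ w.1 w.2.1, hτ2 w.1 w.2.1 v0 w.2.2⟩ : St)) ⁻¹' {g}) =>
              (⟨w.1.1, ?_⟩ : D w1.1.1)) ?_
        · have hw : τ w.1.1 w.1.2.1 = g.1 := congrArg Subtype.val w.2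
          rw [hDτ w1.1.1 w1.1.2.1, hw1, ← hw, ← hDτ]
          exact Dself _
        · intro w w' h
          have h3 : (w.1.1 : V) = w'.1.1 := congrArg (fun x : D w1.1.1 => (x : V)) h
          exact Subtype.ext (Subtype.ext h3)
      · rw [not_nonempty_iff] at hne
        rw [Cardinal.mk_eq_zero_iff.2 hne]
        exact zero_le
    exact h1.trans ((mul_le_mul' hStc le_rfl).trans hmul)
  have hOW : (Set.range fun g : X ≃g X => g v0) ⊆ {w : V | z w ≠ w} := by
    rintro _ ⟨g, rfl⟩
    show z (g v0) ≠ g v0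
    rw [← hcomm]
    exact fun h => hv0 (g.injective h)
  exact absurd hO (not_lt.2 ((Cardinal.mk_le_mk_of_subset hOW).trans hW))

end Pool.Agent.K1H26.EO
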